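import Pool.Agent.H67.SQ.Conn

/-!
# SR Grow: the measure of the set where a smooth function is near its maximum
-/

set_option autoImplicit false

open scoped Manifold ContDiff Topology
open MeasureTheory Bundle

namespace Pool.Agent.H93.SR

open Pool.Agent.H67.SQ

variable {E : Type*} [NormedAddCommGroup E] [NormedSpace ℝ E] [FiniteDimensional ℝ E]
  {M : Type*} [TopologicalSpace M] [ChartedSpace E M] [IsManifold 𝓘(ℝ, E) ∞ M]

omit [FiniteDimensional ℝ E] in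
/-- second order bound at a critical point -/
theorem quad {v : E → ℝ} {y0 : E} (hv : ContDiffAt ℝ 2 v y0) (h0 : fderiv ℝ v y0 = 0) :
    ∃ K > 0, ∃ ρ > 0, ∀ y, ‖y - y0‖ < ρ → v y0 - K * ‖y - y0‖ ^ 2 ≤ v y := by
  have h1 : ContDiffAt ℝ 1 (fderiv ℝ v) y0 := hv.fderiv_right (by norm_num)
  obtain ⟨K, t, ht, hK⟩ := h1.exists_lipschitzOnWith
  have h2 : ∀ᶠ y in 𝓝 y0, DifferentiableAt ℝ v y := by
    have := hv.eventually (by simp)
    filter_upwards [this] with y hy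
    exact hy.differentiableAt (by norm_num)
  obtain ⟨ρ, hρ, hball⟩ := Metric.mem_nhds_iff.1 (Filter.inter_mem ht h2)
  refine ⟨K + 1, by positivity, ρ, hρ, fun y hy => ?_⟩
  have hy0 : y0 ∈ t := mem_of_mem_nhds ht
  have hs : Metric.closedBall y0 ‖y - y0‖ ⊆ Metric.ball y0 ρ := Metric.closedBall_subset_ball hy
  have h3 := Convex.norm_image_sub_le_of_norm_fderiv_le (𝕜 := ℝ) (f := v) (C := K * ‖y - y0‖)
    (s := Metric.closedBall y0 ‖y - y0‖) (x := y0) (y := y)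
    (fun z hz => (hball (hs hz)).2) (by
      intro z hz
      have hzt : z ∈ t := (hball (hs hz)).1
      have h4 := hK.norm_sub_le hzt hy0
      rw [h0, sub_zero] at h4
      refine h4.trans (mul_le_mul_of_nonneg_left ?_ K.2)
      rw [← dist_eq_norm]
      exact hz) (convex_closedBall _ _) (Metric.mem_closedBall_self (norm_nonneg _))
    (by rw [Metric.mem_closedBall, dist_eq_norm])
  rw [Real.norm_eq_abs, abs_le] at h3
  nlinarith [h3.1, norm_nonneg (y - y0), sq_nonneg ‖y - y0‖]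

theorem grow_93 [MeasurableSpace M] {μ : Measure M} [IsFiniteMeasure μ] {d : ℕ}
    {u : M → ℝ} (hu : Smooth E u) {x0 : M} (h : ∀ x, u x ≤ u x0)
    (hμ : ∃ c > 0, ∃ ε0 > 0, ∀ ε : ℝ, 0 < ε → ε ≤ ε0 →
      c * ε ^ d ≤ μ.real {x | x ∈ (chartAt E x0).source ∧ ‖chartAt E x0 x - chartAt E x0 x0‖ < ε}) :
    ∃ c > 0, ∃ s0 > 0, ∀ s : ℝ, 0 < s → s ≤ s0 → c * s ^ ((d : ℝ) / 2) ≤ μ.real {x | u x0 - s ≤ u x} := by
  obtain ⟨c, hc, ε0, hε0, hμ⟩ := hμ
  set φ := chartAt E x0 with hφ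
  set v : E → ℝ := u ∘ φ.symm with hvdef
  have hx0 : x0 ∈ φ.source := mem_chart_source E x0
  have hy0 : φ x0 ∈ φ.target := φ.map_source hx0
  have hsm : ContMDiffOn 𝓘(ℝ, E) 𝓘(ℝ, ℝ) ∞ v φ.target :=
    ContMDiff.comp_contMDiffOn hu contMDiffOn_chart_symm
  have hv : ContDiffAt ℝ 2 v (φ x0) :=
    ((contMDiffOn_iff_contDiffOn.1 hsm).contDiffAt (φ.open_target.mem_nhds hy0)).of_le (by
      exact WithTop.coe_le_coe.2 (le_top : (2 : ℕ∞) ≤ ⊤))
  have hv0 : v (φ x0) = u x0 := by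
    show u (φ.symm (φ x0)) = u x0
    rw [φ.left_inv hx0]
  have hmax : IsLocalMax v (φ x0) := Filter.Eventually.of_forall fun y => by
    rw [hv0]; exact h _
  obtain ⟨K, hK, ρ, hρ, hq⟩ := quad hv hmax.fderiv_eq_zero
  refine ⟨c / K ^ ((d : ℝ) / 2), div_pos hc (Real.rpow_pos_of_pos hK _), K * (min ρ ε0 / 2) ^ 2, by positivity, ?_⟩
  intro s hs hs0
  have hε : 0 < Real.sqrt (s / K) := Real.sqrt_pos.2 (div_pos hs hK)
  have hle : Real.sqrt (s / K) ≤ min ρ ε0 / 2 := by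
    rw [show min ρ ε0 / 2 = Real.sqrt ((min ρ ε0 / 2) ^ 2) from (Real.sqrt_sq (by positivity)).symm]
    apply Real.sqrt_le_sqrt
    rw [div_le_iff₀ hK]
    linarith
  have hmin : 0 < min ρ ε0 := lt_min hρ hε0
  have h1 : Real.sqrt (s / K) ≤ ε0 := by
    have := min_le_right ρ ε0
    linarith
  have h2 : Real.sqrt (s / K) < ρ := by
    have := min_le_left ρ ε0
    linarith
  have h3 := hμ _ hε h1
  have h4 : Real.sqrt (s / K) ^ d = s ^ ((d : ℝ) / 2) / K ^ ((d : ℝ) / 2) := by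
    rw [← Real.div_rpow hs.le hK.le, Real.sqrt_eq_rpow, ← Real.rpow_natCast, ← Real.rpow_mul (div_pos hs hK).le]
    congr 1
    ring
  have h5 : c / K ^ ((d : ℝ) / 2) * s ^ ((d : ℝ) / 2) = c * Real.sqrt (s / K) ^ d := by
    rw [h4]
    ring
  rw [h5]
  refine h3.trans (measureReal_mono ?_)
  rintro x ⟨hx, hxε⟩
  have h6 := hq (φ x) (hxε.trans h2)
  have h7 : v (φ x) = u x := by
    show u (φ.symm (φ x)) = u x
    rw [φ.left_inv hx]
  rw [hv0, h7] at h6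
  have h8 : K * ‖φ x - φ x0‖ ^ 2 ≤ s := by
    have h9 : ‖φ x - φ x0‖ ^ 2 ≤ Real.sqrt (s / K) ^ 2 := by
      gcongr
    rw [Real.sq_sqrt (div_pos hs hK).le] at h9
    calc K * ‖φ x - φ x0‖ ^ 2 ≤ K * (s / K) := mul_le_mul_of_nonneg_left h9 hK.le
      _ = s := by field_simp
  show u x0 - s ≤ u x
  linarith

end Pool.Agent.H93.SR
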